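import Pool.Agent.H65.G4.Pc
import Pool.Agent.H13.G4.Pc

/-!
# Path contraction: no directed cycle of length two or three

`u` inner and good, quad `u → o → s → i → u`, far edges `o s`, `s i` not special.

* `ear2`, `ear3` : no directed path of length two / three between vertices of the contracted set
  (the part of `D`), from `Good`, the two other faces and the hypothesis `h3` (no directed
  path of length three between `o` and `i`).
* `pc_ok` : the image of `D - u` with the new arcs `A` is asymmetric and has no directed triangle,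
  as soon as this is true inside `L` = image of the neighbours of `u`.
-/

set_option autoImplicit false

namespace Pool.Agent.H32.G4

open Relation Pool.Agent.H13.DA Pool.Agent.H72.G4 Pool.Agent.H21.G4 Pool.Agent.H13.G4
  Pool.Agent.H65.G4

variable {V : Type*} [DecidableEq V] {T : Finset (V × V × V)} {D : V → V → Prop} {a b c : V}

/-- the edge `x y` is not special on the side of a real triangle -/
def Sh (T : Finset (V × V × V)) (D : V → V → Prop) (x y : V) : Prop :=
  ∃ z, Re D z ∧ Face T x y z ∧ (D z x ↔ D z y)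

/-- one end is inner and good -/
def Gd (T : Finset (V × V × V)) (D : V → V → Prop) (a b c x : V) : Prop :=
  ¬ Tr a b c x ∧ Good T D x

/-- an edge with an inner end has exactly two common neighbours -/
theorem common2 (hT : Ts T D a b c) {x y p r u : V} (hxy : Adj T x y)
    (hi : ¬ Tr a b c x ∨ ¬ Tr a b c y)
    (h1 : Face T x y p) (h2 : Face T x y r) (hpr : p ≠ r) (hx : Adj T x u) (hyu : Adj T y u) :
    u = p ∨ u = r := by
  have cx := hT.pl.disc.cx
  have h3 : Face T x y u := by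
    rcases hT.fc x y u hxy hyu hx.symm with k | ⟨k1, k2, _⟩
    · exact k
    · rcases hi with hi | hi
      · exact absurd k1 hi
      · exact absurd k2 hi
  rcases two_faces cx h3 h1 h2 with k | k | k
  · exact Or.inl k
  · exact absurd k hpr
  · exact Or.inr k

section

variable {u o s i d w y1 y2 : V}

/-- the data of a path contraction, hypotheses -/
structure PcH (T : Finset (V × V × V)) (D : V → V → Prop) (a b c : V) (u o s i d : V) :
    Prop where
  q : Qd T D u o s i d
  gu : Gd T D a b c u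
  sos : Sh T D o s
  ssi : Sh T D s i
  gos : Gd T D a b c o ∨ Gd T D a b c s
  gsi : Gd T D a b c s ∨ Gd T D a b c i
  n1 : ∀ q, Adj T o q → Adj T i q → q = u ∨ q = s ∨ q = d
  n2 : ∀ q, Adj T u q → Adj T s q → q = o ∨ q = i ∨ q = d
  e3 : ∀ y z, y ≠ u → z ≠ u → ¬ Wq o s i d y → ¬ Wq o s i d z →
    ¬ (D o y ∧ D y z ∧ D z i) ∧ ¬ (D i y ∧ D y z ∧ D z o)

/-- the real common neighbours of the ends of a far edge -/
theorem far_common (hT : Ts T D a b c) {x y z : V} (hxy : Ar D x y)
    (hd : ¬ Re D d) (hdx : Adj T d x) (hdy : Adj T d y)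
    (hi : ¬ Tr a b c x ∨ ¬ Tr a b c y) (hz : Re D z) (hf : Face T x y z) (hs : D z x ↔ D z y) :
    (∀ m, Ar D x m → Ar D y m → (D m x ↔ D m y)) ∧
      ∀ m, ¬ Re D m → Adj T x m → Adj T y m → m = d := by
  have cx := hT.pl.disc.cx
  have hdT : ¬ Tr a b c d := fun k => hd (tr_re hT.out k)
  have fd : Face T x y d := by
    rcases hT.fc x y d (hT.pl.ar_adj hxy) hdy.symm hdx with k | ⟨_, _, k⟩
    · exact k
    · exact absurd k hdT
  have hne : z ≠ d := by
    rintro rfl
    exact hd hz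
  refine ⟨?_, ?_⟩
  · intro m h1 h2
    rcases common2 hT (hT.pl.ar_adj hxy) hi hf fd hne (hT.pl.ar_adj h1) (hT.pl.ar_adj h2) with
      rfl | rfl
    · exact hs
    · exact absurd (ar_re h1).2 hd
  · intro m h1 h2 h3
    rcases common2 hT (hT.pl.ar_adj hxy) hi hf fd hne h2 h3 with rfl | rfl
    · exact absurd hz h1
    · rfl

omit [DecidableEq V] in
/-- no directed path of length two over a far edge -/
theorem two_ear (hT : Ts T D a b c) {x y : V}
    (hc : ∀ m, Ar D x m → Ar D y m → (D m x ↔ D m y)) {m : V} (h1 : D x m) (h2 : D m y) :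
    False :=
  hT.pl.asymm _ _ h1 ((hc m (Or.inl h1) (Or.inr h2)).2 h2)

omit [DecidableEq V] in
/-- no directed path of length three over a far edge -/
theorem three_ear (hT : Ts T D a b c) {x y : V} (hxy : Ar D x y) (hd : ¬ Re D d)
    (hc : ∀ m, Ar D x m → Ar D y m → (D m x ↔ D m y))
    (hm : ∀ m, ¬ Re D m → Adj T x m → Adj T y m → m = d)
    (hg : Good T D x ∨ Good T D y) {m n : V} (hdm : ¬ Adj T d m) (hdn : ¬ Adj T d n)
    (h1 : D x m) (h2 : D m n) (h3 : D n y) : False := by
  have has := hT.pl.asymm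
  have htr := hT.pl.tri
  have irr : ∀ x, ¬ D x x := fun x k => has x x k k
  -- `x - n` not adjacent, `y - m` not adjacent
  have k1 : ¬ Ar D x n := by
    intro k
    have := (hc n k (Or.inr h3)).2 h3
    exact htr _ _ _ h1 h2 this
  have k2 : ¬ Ar D y m := by
    intro k
    by_cases e : D m y
    · exact has _ _ h1 ((hc m (Or.inl h1) k).2 e)
    · rcases k with k | k
      · exact htr _ _ _ h2 h3 k
      · exact e k
  have exn : x ≠ n := by
    rintro rfl
    exact has _ _ h1 h2
  have eym : y ≠ m := by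
    rintro rfl
    exact has _ _ h2 h3
  rcases hg with hg | hg
  · -- `Good x`: neighbours `y`, `m`, common neighbour `n`
    rcases hg y m n hxy (Or.inl h1) eym k2 exn.symm (Or.inr h3) (Or.inl h2) with
      h | ⟨e, e1, e2, e3, e4, e5⟩
    · exact k1 h
    · have := hm e e1 e2.symm e3.symm
      subst this
      exact hdm e4
  · rcases hg x n m (ar_symm hxy) (Or.inr h3) exn k1 eym.symm (Or.inl h1) (Or.inr h2) with
      h | ⟨e, e1, e2, e3, e4, e5⟩
    · exact k2 h
    · have := hm e e1 e3.symm e2.symm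
      subst this
      exact hdn e4

theorem PcH.far (hT : Ts T D a b c) (h : PcH T D a b c u o s i d) :
    ((∀ m, Ar D o m → Ar D s m → (D m o ↔ D m s)) ∧
      ∀ m, ¬ Re D m → Adj T o m → Adj T s m → m = d) ∧
    ((∀ m, Ar D s m → Ar D i m → (D m s ↔ D m i)) ∧
      ∀ m, ¬ Re D m → Adj T s m → Adj T i m → m = d) := by
  obtain ⟨z, z1, z2, z3⟩ := h.sos
  obtain ⟨z', z1', z2', z3'⟩ := h.ssi
  have ao := (h.q.adj o).2 (Or.inr (Or.inl rfl))
  have as := (h.q.adj s).2 (Or.inr (Or.inr (Or.inl rfl)))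
  have ai := (h.q.adj i).2 (Or.inr (Or.inr (Or.inr rfl)))
  exact ⟨far_common hT (Or.inl h.q.os) h.q.nd ao as (h.gos.imp And.left And.left) z1 z2 z3,
    far_common hT (Or.inl h.q.si) h.q.nd as ai (h.gsi.imp And.left And.left) z1' z2' z3'⟩

/-- **no 2-ear** -/
theorem PcH.ear2 (hT : Ts T D a b c) (h : PcH T D a b c u o s i d) {x y z : V}
    (hx : Wq o s i d x) (hy : ¬ Wq o s i d y) (hz : Wq o s i d z) (hyu : y ≠ u)
    (h1 : D x y) (h2 : D y z) : False := by
  obtain ⟨⟨c1, _⟩, ⟨c2, _⟩⟩ := h.far hT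
  have has := hT.pl.asymm
  have oi : ∀ {m}, ¬ Wq o s i d m → m ≠ u → Ar D o m → Ar D i m → False := by
    intro m hm hmu k1 k2
    rcases h.n1 m (hT.pl.ar_adj k1) (hT.pl.ar_adj k2) with k | k | k
    · exact hmu k
    · exact hm (Or.inr (Or.inl k))
    · exact hm (Or.inr (Or.inr (Or.inr k)))
  rcases hx with rfl | rfl | rfl | rfl
  · rcases hz with rfl | rfl | rfl | rfl
    · exact has _ _ h1 h2
    · exact two_ear hT c1 h1 h2
    · exact oi hy hyu (Or.inl h1) (Or.inr h2)
    · exact h.q.nd ⟨_, Or.inr h2⟩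
  · rcases hz with rfl | rfl | rfl | rfl
    · exact two_ear hT (fun m k1 k2 => (c1 m k2 k1).symm) h1 h2
    · exact has _ _ h1 h2
    · exact two_ear hT c2 h1 h2
    · exact h.q.nd ⟨_, Or.inr h2⟩
  · rcases hz with rfl | rfl | rfl | rfl
    · exact oi hy hyu (Or.inr h2) (Or.inl h1)
    · exact two_ear hT (fun m k1 k2 => (c2 m k2 k1).symm) h1 h2
    · exact has _ _ h1 h2
    · exact h.q.nd ⟨_, Or.inr h2⟩
  · exact h.q.nd ⟨_, Or.inl h1⟩

/-- **no 3-ear** -/
theorem PcH.ear3 (hT : Ts T D a b c) (h : PcH T D a b c u o s i d) {x y z t : V}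
    (hx : Wq o s i d x) (hy : ¬ Wq o s i d y) (hz : ¬ Wq o s i d z) (ht : Wq o s i d t)
    (hyu : y ≠ u) (hzu : z ≠ u) (h1 : D x y) (h2 : D y z) (h3 : D z t) : False := by
  obtain ⟨⟨c1, m1⟩, ⟨c2, m2⟩⟩ := h.far hT
  have htr := hT.pl.tri
  have nd : ∀ m, ¬ Wq o s i d m → m ≠ u → ¬ Adj T d m := by
    intro m hm hmu k
    rcases (h.q.adj m).1 k with k | k | k | k
    · exact hmu k
    · exact hm (Or.inl k)
    · exact hm (Or.inr (Or.inl k))
    · exact hm (Or.inr (Or.inr (Or.inl k)))
  have g1 : Good T D o ∨ Good T D s := h.gos.imp And.right And.right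
  have g2 : Good T D s ∨ Good T D i := h.gsi.imp And.right And.right
  have aos : Ar D o s := Or.inl h.q.os
  have asi : Ar D s i := Or.inl h.q.si
  rcases hx with rfl | rfl | rfl | rfl
  · rcases ht with rfl | rfl | rfl | rfl
    · exact htr _ _ _ h1 h2 h3
    · exact three_ear hT aos h.q.nd c1 m1 g1 (nd _ hy hyu) (nd _ hz hzu) h1 h2 h3
    · exact (h.e3 y z hyu hzu hy hz).1 ⟨h1, h2, h3⟩
    · exact h.q.nd ⟨_, Or.inr h3⟩
  · rcases ht with rfl | rfl | rfl | rfl
    · exact three_ear hT (ar_symm aos) h.q.nd (fun m k1 k2 => (c1 m k2 k1).symm)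
        (fun m k1 k2 k3 => m1 m k1 k3 k2) g1.symm (nd _ hy hyu) (nd _ hz hzu) h1 h2 h3
    · exact htr _ _ _ h1 h2 h3
    · exact three_ear hT asi h.q.nd c2 m2 g2 (nd _ hy hyu) (nd _ hz hzu) h1 h2 h3
    · exact h.q.nd ⟨_, Or.inr h3⟩
  · rcases ht with rfl | rfl | rfl | rfl
    · exact (h.e3 y z hyu hzu hy hz).2 ⟨h1, h2, h3⟩
    · exact three_ear hT (ar_symm asi) h.q.nd (fun m k1 k2 => (c2 m k2 k1).symm)
        (fun m k1 k2 k3 => m2 m k1 k3 k2) g2.symm (nd _ hy hyu) (nd _ hz hzu) h1 h2 h3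
    · exact htr _ _ _ h1 h2 h3
    · exact h.q.nd ⟨_, Or.inr h3⟩
  · exact h.q.nd ⟨_, Or.inl h1⟩

/-- the image of the neighbours of `u` -/
def Lk (D : V → V → Prop) (u o s i d w x : V) : Prop :=
  x = w ∨ (Ar D u x ∧ ¬ Wq o s i d x)

/-- **The new digraph has no directed cycle of length two or three**, as soon as this is true
inside the image of the neighbours of `u`. -/
theorem PcH.ok (hT : Ts T D a b c) (h : PcH T D a b c u o s i d) (hw : w = o ∨ w = s ∨ w = i)
    {A : V → V → Prop}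
    (hAL : ∀ x y, A x y → Lk D u o s i d w (rp (Wq o s i d) w x) ∧
      Lk D u o s i d w (rp (Wq o s i d) w y))
    (h5 : ∀ n z, Ar D u n → ¬ Wq o s i d n → z ≠ u → ¬ Wq o s i d z → ¬ Ar D u z →
      (Imd (rp (Wq o s i d) w) A w n ∨ Imd (rp (Wq o s i d) w) A n w) → Ar D n z → ¬ Ar D z s)
    (hnq : ∀ x y e, Imd (rp (Wq o s i d) w) A (rp (Wq o s i d) w x) (rp (Wq o s i d) w y) →
      D x u → D u y → ¬ Re D e → Adj T e u → Adj T e x → ¬ Adj T e y)
    (l2 : ∀ x y, Imd (rp (Wq o s i d) w) A x y →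
      ¬ Imd (rp (Wq o s i d) w) (Fil D u A) y x)
    (l3 : ∀ x y z, Imd (rp (Wq o s i d) w) A x y → Lk D u o s i d w z →
      Imd (rp (Wq o s i d) w) (Fil D u A) y z → ¬ Imd (rp (Wq o s i d) w) (Fil D u A) z x) :
    (∀ x y, Imd (rp (Wq o s i d) w) (Fil D u A) x y →
      ¬ Imd (rp (Wq o s i d) w) (Fil D u A) y x) ∧
    (∀ x y z, Imd (rp (Wq o s i d) w) (Fil D u A) x y →
      Imd (rp (Wq o s i d) w) (Fil D u A) y z → ¬ Imd (rp (Wq o s i d) w) (Fil D u A) z x) := by
  set f := rp (Wq o s i d) w with hf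
  have has := hT.pl.asymm
  have htr := hT.pl.tri
  have hW : Wq o s i d w := by
    rcases hw with k | k | k
    · exact Or.inl k
    · exact Or.inr (Or.inl k)
    · exact Or.inr (Or.inr (Or.inl k))
  obtain ⟨e1, e2, e3, e4, -⟩ := h.q.ne hT
  have huW : ¬ Wq o s i d u := by
    rintro (k | k | k | k)
    · exact e1 k
    · exact e2 k
    · exact e3 k
    · exact e4 k
  have huw : u ≠ w := fun k => huW (k ▸ hW)
  -- old arcs and new arcs
  have split : ∀ x y, Imd f (Fil D u A) x y → Imd f (H21.G4.Del D u) x y ∨ Imd f A x y := by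
    rintro x y ⟨k, x', y', k1, k2, k3 | k3⟩
    · exact Or.inl ⟨k, x', y', k1, k2, k3⟩
    · exact Or.inr ⟨k, x', y', k1, k2, k3⟩
  have a0 : ∀ x y, Imd f (H21.G4.Del D u) x y → ¬ Imd f (H21.G4.Del D u) y x :=
    imd_asymm hW (fun x y k k' => has _ _ k.1 k'.1)
      (fun x y z k1 k2 k3 k4 k5 => h.ear2 hT k1 k2 k3 k4.2.2 k4.1 k5.1)
  have t0 : ∀ x y z, Imd f (H21.G4.Del D u) x y → Imd f (H21.G4.Del D u) y z →
      ¬ Imd f (H21.G4.Del D u) z x :=
    imd_tri hW (fun x y z k1 k2 k3 => htr _ _ _ k1.1 k2.1 k3.1)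
      (fun x y z t k1 k2 k3 k4 k5 k6 k7 => h.ear3 hT k1 k2 k3 k4 k5.2.2 k6.2.2 k5.1 k6.1 k7.1)
  have hAL' : ∀ x y, Imd f A x y → Lk D u o s i d w x ∧ Lk D u o s i d w y := by
    rintro x y ⟨k, x', y', rfl, rfl, k3⟩
    exact hAL x' y' k3
  -- preimages
  have pre : ∀ x x', f x' = x → Lk D u o s i d w x → Re D x' → (Ar D u x') ∨ x' = s := by
    rintro x x' k1 (rfl | ⟨k2, k3⟩) k4
    · rcases rp_eq_w hW k1 with k | k | k | k
      · exact Or.inl (Or.inl (k ▸ h.q.uo))
      · exact Or.inr k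
      · exact Or.inl (Or.inr (k ▸ h.q.iu))
      · exact absurd k4 (k ▸ h.q.nd)
    · have hxw : x ≠ w := fun k => k3 (k ▸ hW)
      obtain ⟨k5, _⟩ := rp_eq k1 hxw
      exact Or.inl (k5 ▸ k2)
  -- a triangle with the new arc `x → y` and the old arcs `y → z → x`, `z` outside
  have out : ∀ x y z, Imd f A x y → ¬ Lk D u o s i d w z → Imd f (H21.G4.Del D u) y z →
      Imd f (H21.G4.Del D u) z x → False := by
    rintro x y z k1 k2 ⟨k3, y', z1, g1, g2, g3, g3', g3''⟩ ⟨k4, z2, x', g4, g5, g6, g6', g6''⟩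
    have hzw : z ≠ w := fun k => k2 (Or.inl k)
    obtain ⟨rfl, hz1⟩ := rp_eq g2 hzw
    obtain ⟨rfl, -⟩ := rp_eq g4 hzw
    have hzu : ¬ Ar D u z2 := fun k => k2 (Or.inr ⟨k, hz1⟩)
    obtain ⟨L1, L2⟩ := hAL' x y k1
    have ry : Re D y' := ⟨_, Or.inl g3⟩
    have rx : Re D x' := ⟨_, Or.inr g6⟩
    have hs5 : ∀ n n', Ar D u n → ¬ Wq o s i d n → (Imd f A w n ∨ Imd f A n w) → n' = s →
        Ar D n z2 → Ar D z2 n' → False := by
      rintro n n' k5 k6 k7 rfl k8 k9
      exact h5 n z2 k5 k6 g3'' hz1 hzu k7 k8 k9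
    rcases pre y y' g1 L2 ry with p1 | p1
    · rcases pre x x' g5 L1 rx with p2 | p2
      · -- both neighbours of `u`
        have hxy' : x' ≠ y' := by
          rintro rfl
          exact has _ _ g3 g6
        by_cases hadj : Ar D x' y'
        · rcases hadj with k | k
          · exact htr _ _ _ k g3 g6
          · refine l2 x y k1 ⟨?_, y', x', g1, g5, Or.inl ⟨k, g3', g6''⟩⟩
            exact k1.1.symm
        · rcases h.gu.2 x' y' z2 p2 p1 hxy' hadj g3'' (Or.inr g6) (Or.inl g3) with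
            k | ⟨e, q1, q2, q3, q4, q5⟩
          · exact hzu k
          · rcases good_common hT h.gu.2 p2 p1 hxy' hadj g3'' (Or.inr g6) (Or.inl g3) with
              k | ⟨r1, r2, -, -⟩ | ⟨-, -, r3, -⟩
            · exact hzu k
            · exact hnq x' y' e (by rw [g5, g1]; exact k1) r1 r2 q1 q2 q3 q4
            · exact has _ _ r3 g6
      · -- `x' = s`
        subst p2
        have hxw : x = w := by rw [← g5]; exact rp_in (Or.inr (Or.inl rfl))
        subst hxw
        have hyW : ¬ Wq o x' i d y' := by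
          intro k
          apply k1.1
          rw [← g1]
          exact (rp_in k).symm
        have hyy : y = y' := by rw [← g1]; exact rp_out hyW
        subst hyy
        exact hs5 y _ p1 hyW (Or.inl k1) rfl (Or.inl g3) (Or.inl g6)
    · subst p1
      have hyw : y = w := by rw [← g1]; exact rp_in (Or.inr (Or.inl rfl))
      subst hyw
      have hxW : ¬ Wq o y' i d x' := by
        intro k
        apply k1.1
        rw [← g5]
        exact rp_in k
      have hxx : x = x' := by rw [← g5]; exact rp_out hxW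
      subst hxx
      rcases L1 with p2 | ⟨p2, -⟩
      · exact absurd (p2 ▸ hW) hxW
      · exact hs5 x _ p2 hxW (Or.inr k1) rfl (Or.inr g6) (Or.inr g3)
  refine ⟨?_, ?_⟩
  · intro x y k1 k2
    rcases split x y k1 with k3 | k3
    · rcases split y x k2 with k4 | k4
      · exact a0 x y k3 k4
      · exact l2 y x k4 k1
    · exact l2 x y k3 k2
  · intro x y z k1 k2 k3
    -- a new arc first
    have key : ∀ x y z, Imd f A x y → Imd f (Fil D u A) y z → Imd f (Fil D u A) z x → False := by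
      intro x y z k1 k2 k3
      by_cases hz : Lk D u o s i d w z
      · exact l3 x y z k1 hz k2 k3
      · rcases split y z k2 with k4 | k4
        · rcases split z x k3 with k5 | k5
          · exact out x y z k1 hz k4 k5
          · exact hz (hAL' z x k5).1
        · exact hz (hAL' y z k4).2
    rcases split x y k1 with q1 | q1
    · rcases split y z k2 with q2 | q2
      · rcases split z x k3 with q3 | q3
        · exact t0 x y z q1 q2 q3
        · exact key z x y q3 k1 k2
      · exact key y z x q2 k3 k1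
    · exact key x y z q1 k2 k3

end

end Pool.Agent.H32.G4
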