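import Pool.Agent.H32.G4.Far

/-!
# `PcH` and `Pcb` from the context
-/

set_option autoImplicit false

namespace Pool.Agent.H32.G4

open Relation Pool.Agent.H13.DA Pool.Agent.H72.G4 Pool.Agent.H21.G4 Pool.Agent.H13.G4
  Pool.Agent.H65.G4 Pool.Agent.H96.G4 Pool.Agent.H80.G4

variable {V : Type*} [DecidableEq V] {T X Y : Finset (V × V × V)} {D : V → V → Prop} {a b c : V}
  {Z C : List V} {u o s i d : V}

/-- a spoke which is covered from neither side -/
theorem no_contract' [Infinite V] (hM : MCw T D a b c) (hT : Ts T D a b c) {v y p r : V}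
    (hv : ¬ Tr a b c v) (hg : Good T D v) (hp : Face T v y p) (hr : Face T v y r) (hpr : p ≠ r)
    (rp : Re D p) (rr : Re D r) (ha : Ar D v y) (h1 : D p y ↔ D p v) (h2 : D r y ↔ D r v) :
    False := by
  have cx := hT.pl.disc.cx
  rcases hp with hp | hp <;> rcases hr with hr | hr
  · exact hpr (cx.uniq hp hr)
  · exact no_contract Pool.Agent.H13.G4.fanT hM hT hv hg (cx.rot (cx.rot hr)) hp rr rp
      (ar_symm ha) h2 h1
  · exact no_contract Pool.Agent.H13.G4.fanT hM hT hv hg (cx.rot (cx.rot hp)) hr rp rr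
      (ar_symm ha) h1 h2
  · exact hpr (uniq2 cx (cx.rot (cx.rot (cx.rot hp))) hr)

/-- **no directed 3-ears between `o` and `i`** -/
theorem ear3d [Infinite V] (hM : MCw T D a b c) (hT : Ts T D a b c) (H : Cx5 T X D Z)
    (hu : Inr X D Z u) (ho : Inr X D Z o) (hs : Inr X D Z s) (hi : Inr X D Z i)
    (h : Qd T D u o s i d) (h1 : Sh T D o s) (h2 : Sh T D s i) {y z : V} (hyu : y ≠ u)
    (hzu : z ≠ u) (hy : ¬ Wq o s i d y) (hz : ¬ Wq o s i d z) :
    ¬ (D o y ∧ D y z ∧ D z i) ∧ ¬ (D i y ∧ D y z ∧ D z o) := by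
  have cx := hT.pl.disc.cx
  have has := hT.pl.asymm
  have htr := hT.pl.tri
  obtain ⟨v1, v2, v3, v4⟩ := h1
  obtain ⟨w1, w2, w3, w4⟩ := h2
  have a1 := (h.adj u).2 (Or.inl rfl)
  have a2 := (h.adj o).2 (Or.inr (Or.inl rfl))
  have a3 := (h.adj s).2 (Or.inr (Or.inr (Or.inl rfl)))
  have a4 := (h.adj i).2 (Or.inr (Or.inr (Or.inr rfl)))
  have c1 := (far_common hT (Or.inl h.os) h.nd a2 a3 (Or.inl (ho.tr hT H)) v2 v3 v4).1
  have c2 := (far_common hT (Or.inl h.si) h.nd a3 a4 (Or.inl (hs.tr hT H)) w2 w3 w4).1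
  obtain ⟨n1, -⟩ := comm hT H hu h ⟨v1, v2, v3⟩ ⟨w1, w2, w3⟩
  have huT := hu.tr hT H
  have hgu := H.good u hu.mem hu.re hu.off
  have fa : ∀ {y z : V}, Ar D u y → Ar D y z → Ar D u z → Face T u y z := by
    intro y z k1 k2 k3
    rcases hT.fc u y z (hT.pl.ar_adj k1) (hT.pl.ar_adj k2) (hT.pl.ar_adj k3).symm with k | ⟨k, _⟩
    · exact k
    · exact absurd k huT
  refine ⟨?_, ?_⟩
  · rintro ⟨k1, k2, k3⟩
    rcases ear3u hT H hu ho hs hi h n1 hyu hzu hy hz (Or.inl k1) (Or.inl k2) (Or.inl k3) with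
      ⟨g1, g2⟩ | ⟨g1, g2⟩
    · have q1 : D u y := g1.resolve_right (fun k => htr _ _ _ h.uo k1 k)
      have q2 : D z u := g2.resolve_left (fun k => htr _ _ _ k k3 h.iu)
      exact htr _ _ _ q1 k2 q2
    · have q1 : D s y := g1.resolve_right
        (fun k => has _ _ k1 ((c1 y (Or.inl k1) g1).2 k))
      have q2 : D z s := (c2 z g2 (Or.inr k3)).2 k3
      exact htr _ _ _ q1 k2 q2
  · rintro ⟨k1, k2, k3⟩
    rcases ear3u hT H hu ho hs hi h n1 hzu hyu hz hy (Or.inr k3) (Or.inr k2) (Or.inr k1) with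
      ⟨g2, g1⟩ | ⟨g2, g1⟩
    · have q1 : D z u := by
        by_contra hcon
        refine no_contract' hM hT huT hgu (fa g1 (Or.inr k1) (Or.inr h.iu))
          (fa g1 (Or.inl k2) g2) ?_ (ar_re (Or.inl k1)).1 (ar_re (Or.inl k3)).1 g1
          ⟨fun _ => h.iu, fun _ => k1⟩
          ⟨fun k => absurd k (has _ _ k2), fun k => absurd k hcon⟩
        exact fun e => hz (Or.inr (Or.inr (Or.inl e.symm)))
      have q2 : D u y := by
        by_contra hcon
        have hcon' : D y u := g1.resolve_left hcon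
        refine no_contract' hM hT huT hgu (fa g2 (Or.inl k3) (Or.inl h.uo))
          (fa g2 (Or.inr k2) g1) ?_ (ar_re (Or.inl k3)).2 (ar_re (Or.inl k1)).2 g2
          ⟨fun k => absurd k (has _ _ k3), fun k => absurd k (has _ _ h.uo)⟩
          ⟨fun _ => hcon', fun _ => k2⟩
        exact fun e => hy (Or.inl e.symm)
      exact htr _ _ _ q2 k2 q1
    · have q1 : D z s := (c1 z (Or.inr k3) g2).1 k3
      have q2 : D s y := g1.resolve_right
        (fun k => has _ _ k1 ((c2 y g1 (Or.inl k1)).1 k))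
      exact htr _ _ _ q2 k2 q1

omit [DecidableEq V] in
/-- inner vertices -/
theorem in_inr {v : V} (h : In X D Z v) : Inr X D Z v := ⟨h.1, h.2.1, h.2.2⟩

/-- **the hypotheses of a path contraction** -/
theorem pch [Infinite V] (hM : MCw T D a b c) (hT : Ts T D a b c) (hC : Ctx T X D a b c Z)
    (hu : In X D Z u) (ho : In X D Z o) (hs : In X D Z s) (hi : In X D Z i)
    (h : Qd T D u o s i d) (h1 : Sh T D o s) (h2 : Sh T D s i) : PcH T D a b c u o s i d := by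
  have H := ctx_cx5 hM hT hC
  have hu' := in_inr hu
  have ho' := in_inr ho
  have hs' := in_inr hs
  have hi' := in_inr hi
  have h1' := h1
  have h2' := h2
  obtain ⟨v1, v2, v3, v4⟩ := h1'
  obtain ⟨w1, w2, w3, w4⟩ := h2'
  obtain ⟨n1, n2⟩ := comm hT H hu' h ⟨v1, v2, v3⟩ ⟨w1, w2, w3⟩
  exact ⟨h, hu'.gd hT H, h1, h2, Or.inl (ho'.gd hT H), Or.inl (hs'.gd hT H), n1, n2,
    fun y z k1 k2 k3 k4 => ear3d hM hT H hu' ho' hs' hi' h h1 h2 k1 k2 k3 k4⟩

/-- **the facts of the old digraph** -/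
theorem pcb [Infinite V] (hM : MCw T D a b c) (hT : Ts T D a b c) (hC : Ctx T X D a b c Z)
    (hu : In X D Z u) (ho : In X D Z o) (hs : In X D Z s) (hi : In X D Z i)
    (h : Qd T D u o s i d) (h1 : Sh T D o s) (h2 : Sh T D s i) : Pcb T D u o s i d := by
  have H := pch hM hT hC hu ho hs hi h h1 h2
  have hW : ∀ {x}, (x = o ∨ x = s ∨ x = i) → Wq o s i d x := by
    rintro x (k | k | k)
    · exact Or.inl k
    · exact Or.inr (Or.inl k)
    · exact Or.inr (Or.inr (Or.inl k))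
  exact ⟨H.n1, H.n2, fun x y z k1 k2 k3 k4 k5 k6 => H.ear2 hT (hW k1) k3 (hW k2) k4 k5 k6,
    fun x y z t k1 k2 k3 k4 k5 k6 k7 k8 k9 =>
      H.ear3 hT (hW k1) k3 k4 (hW k2) k5 k6 k7 k8 k9⟩

/-- **no far neighbour**: a neighbour `x` of `u` which is not adjacent to `o`, `i` and a neighbour
of `s` are not adjacent, except through `u`. -/
theorem no_far [Infinite V] (hM : MCw T D a b c) (hT : Ts T D a b c) (hC : Ctx T X D a b c Z)
    (hu : In X D Z u) (ho : In X D Z o) (hs : In X D Z s) (hi : In X D Z i)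
    (h : Qd T D u o s i d) (h1 : Sh T D o s) (h2 : Sh T D s i) {x m : V} (hx : Ar D u x)
    (hxo : x ≠ o) (hxi : x ≠ i) (no : ¬ Ar D x o) (ni : ¬ Ar D x i) (hsm : Ar D s m)
    (hmx : Ar D m x) : m = u :=
  noF hT (ctx_cx5 hM hT hC) (in_inr hu) (in_inr ho) (in_inr hs) (in_inr hi) h
    (pch hM hT hC hu ho hs hi h h1 h2).n2 hx hxo hxi no ni hsm hmx

/-- a neighbour of `u` which is not next to `o`, `i` in the rotation (or across a quad) -/
theorem no_far_rot [Infinite V] (hM : MCw T D a b c) (hT : Ts T D a b c)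
    (hC : Ctx T X D a b c Z)
    (hu : In X D Z u) (ho : In X D Z o) (hs : In X D Z s) (hi : In X D Z i)
    (h : Qd T D u o s i d) (h1 : Sh T D o s) (h2 : Sh T D s i) {n : ℕ}
    {x : Fin (n + 1) → V} {w : Fin (n + 1) → CT} (R : Rot T D u n x w) {j k : Fin (n + 1)}
    (hj : (x j = o ∧ x (j + 1) = i) ∨ (x j = i ∧ x (j + 1) = o)) (k0 : k ≠ j) (k1 : k ≠ j + 1)
    (kl : k + 1 = j → w k = CT.q) (kr : k = (j + 1) + 1 → w (j + 1) = CT.q) {m : V}
    (hsm : Ar D s m) (hmx : Ar D m (x k)) : m = u := by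
  have huT := (in_inr hu).tr hT (ctx_cx5 hM hT hC)
  have g1 : ¬ Ar D (x k) (x j) := by
    intro g
    rcases R.adj hT huT g with ⟨e, e'⟩ | ⟨e, e'⟩
    · exact e' (kl e.symm)
    · exact k1 e
  have g2 : ¬ Ar D (x k) (x (j + 1)) := by
    intro g
    rcases R.adj hT huT g with ⟨e, e'⟩ | ⟨e, e'⟩
    · exact k0 (add_right_cancel e).symm
    · exact e' (kr e)
  have d1 : x k ≠ x j := fun e => k0 (R.inj e)
  have d2 : x k ≠ x (j + 1) := fun e => k1 (R.inj e)
  have hx : Ar D u (x k) := (R.nb _).2 ⟨k, rfl⟩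
  rcases hj with ⟨e1, e2⟩ | ⟨e1, e2⟩
  · rw [e1] at g1 d1
    rw [e2] at g2 d2
    exact no_far hM hT hC hu ho hs hi h h1 h2 hx d1 d2 g1 g2 hsm hmx
  · rw [e1] at g1 d1
    rw [e2] at g2 d2
    exact no_far hM hT hC hu ho hs hi h h1 h2 hx d2 d1 g2 g1 hsm hmx

end Pool.Agent.H32.G4
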