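import Pool.Agent.H32.G4.Lnk
import Pool.Agent.H32.G4.Ear
import Pool.Agent.H96.G4.Five

/-!
# Path contraction: no 3-ears, far neighbours

`Cx5 T X D Z` : what is used about the region `X` of the discharging.
-/

set_option autoImplicit false

namespace Pool.Agent.H32.G4

open Relation Pool.Agent.H13.DA Pool.Agent.H72.G4 Pool.Agent.H21.G4 Pool.Agent.H13.G4
  Pool.Agent.H65.G4 Pool.Agent.H96.G4

variable {V : Type*} [DecidableEq V] {T X Y : Finset (V × V × V)} {D : V → V → Prop} {a b c : V}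
  {Z C : List V}

/-- the context -/
structure Cx5 (T X : Finset (V × V × V)) (D : V → V → Prop) (Z : List V) : Prop where
  reg : Reg T X D Z
  good : ∀ v, v ∈ verts X → Re D v → v ∉ Z → H72.G4.Good T D v
  deg : ∀ v, v ∈ verts X → Re D v → v ∉ Z → ∀ p q r, ∃ y, Ar D v y ∧ y ≠ p ∧ y ≠ q ∧ y ≠ r
  adjZ : ∀ y z, y ∈ Z → z ∈ Z → Ar D y z → Adj X y z
  five : ∀ Y C, Y ⊆ X → Reg T Y D C → Chl D C → C.length = 5 → (∃ w, w ∈ C ∧ w ∉ Z) →
    ∀ v1 v2, v1 ∈ verts Y → Re D v1 → v1 ∉ C → v2 ∈ verts Y → Re D v2 → v2 ∉ C → v1 = v2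

/-- an inner real vertex of the region -/
structure Inr (X : Finset (V × V × V)) (D : V → V → Prop) (Z : List V) (v : V) : Prop where
  mem : v ∈ verts X
  re : Re D v
  off : v ∉ Z

/-- neighbours of an inner vertex -/
theorem Cx5.nbX (H : Cx5 T X D Z) (hT : Ts T D a b c) {v y : V} (hv : v ∈ verts X)
    (hvZ : v ∉ Z) (h : Adj T v y) : Adj X v y := by
  have cx := hT.pl.disc.cx
  rcases h with ⟨t, h⟩ | ⟨t, h⟩
  · exact Or.inl ⟨t, H.reg.tri_in hv hvZ h⟩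
  · exact Or.inr ⟨t, H.reg.disc.cx.rot (H.reg.disc.cx.rot (H.reg.tri_in hv hvZ (cx.rot h)))⟩

theorem Cx5.adjX (H : Cx5 T X D Z) (hT : Ts T D a b c) {y z : V} (hy : y ∈ verts X)
    (hz : z ∈ verts X) (h : Ar D y z) : Adj X y z := by
  by_cases h1 : y ∈ Z
  · by_cases h2 : z ∈ Z
    · exact H.adjZ y z h1 h2 h
    · exact (H.nbX hT hz h2 (hT.pl.ar_adj (ar_symm h))).symm
  · exact H.nbX hT hy h1 (hT.pl.ar_adj h)

/-- the region of a chordless 5-cycle through an inner vertex -/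
theorem Cx5.cut (H : Cx5 T X D Z) (hT : Ts T D a b c) {u p1 p2 p3 p4 : V}
    (hu : Inr X D Z u) (m1 : p1 ∈ verts X) (m2 : p2 ∈ verts X) (m3 : p3 ∈ verts X)
    (m4 : p4 ∈ verts X)
    (h1 : Ar D u p1) (h2 : Ar D p1 p2) (h3 : Ar D p2 p3) (h4 : Ar D p3 p4) (h5 : Ar D p4 u)
    (n1 : ¬ Ar D u p2) (n2 : ¬ Ar D u p3) (n3 : ¬ Ar D p1 p3) (n4 : ¬ Ar D p1 p4)
    (n5 : ¬ Ar D p2 p4) (e1 : u ≠ p2) (e2 : u ≠ p3) (e3 : p1 ≠ p3) (e4 : p1 ≠ p4)
    (e5 : p2 ≠ p4) :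
    ∃ Y, Y ⊆ X ∧ (Reg T Y D [u, p1, p2, p3, p4] ∨ Reg T Y D [u, p4, p3, p2, p1]) ∧
      ∀ v1 v2, v1 ∈ verts Y → Re D v1 → v1 ∉ [u, p1, p2, p3, p4] → v2 ∈ verts Y → Re D v2 →
        v2 ∉ [u, p1, p2, p3, p4] → v1 = v2 := by
  have irr : ∀ x, ¬ D x x := fun x k => hT.pl.asymm x x k k
  have mem : ∀ v, v ∉ [u, p1, p2, p3, p4] → v ∉ [u, p4, p3, p2, p1] := by
    intro v
    simp only [List.mem_cons, List.not_mem_nil, or_false, not_or]
    tauto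
  obtain ⟨Y, y1, y2, -⟩ := cut5 hT H.reg (H.adjX hT hu.mem m1 h1) (H.adjX hT m1 m2 h2)
    (H.adjX hT m2 m3 h3) (H.adjX hT m3 m4 h4) (H.adjX hT m4 hu.mem h5) e1 e2 e3 e4 e5
    (ar_re h1).1 (ar_re h1).2 (ar_re h2).2 (ar_re h3).2 (ar_re h4).2
  refine ⟨Y, y1, y2, ?_⟩
  intro v1 v2 a1 a2 a3 b1 b2 b3
  rcases y2 with y2 | y2
  · exact H.five Y _ y1 y2 (chl5 irr h1 h2 h3 h4 h5 n1 n2 n3 n4 n5) rfl
      ⟨u, by simp, hu.off⟩ v1 v2 a1 a2 a3 b1 b2 b3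
  · exact H.five Y _ y1 y2 (chl5 irr (ar_symm h5) (ar_symm h4) (ar_symm h3) (ar_symm h2)
      (ar_symm h1) n2 n1 (fun k => n5 (ar_symm k)) (fun k => n4 (ar_symm k))
      (fun k => n3 (ar_symm k))) rfl
      ⟨u, by simp, hu.off⟩ v1 v2 a1 a2 (mem _ a3) b1 b2 (mem _ b3)

/-! ### walking around `u` inside a region -/

/-- the first face -/
theorem reg_start (hY : Reg T Y D C) {u p : V} (h : Cyc C u p) : ∃ t, (u, p, t) ∈ Y :=
  ((hY.bd.iff u p).2 h).1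

/-- all faces at an inner vertex -/
theorem reg_all (hY : Reg T Y D C) {v x t : V} (hv : v ∈ verts Y) (hvC : v ∉ C)
    (h : (v, x, t) ∈ T) : (v, x, t) ∈ Y := hY.tri_in hv hvC h

theorem reg_nb (hT : Ts T D a b c) (hY : Reg T Y D C) {v y : V} (hv : v ∈ verts Y) (hvC : v ∉ C)
    (h : Adj T v y) : y ∈ verts Y := by
  have cx := hT.pl.disc.cx
  rcases h with ⟨t, h⟩ | ⟨t, h⟩
  · exact vert2 hY.disc.cx (reg_all hY hv hvC h)
  · have := reg_all hY hv hvC (cx.rot h)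
    exact vert1 (hY.disc.cx.rot (hY.disc.cx.rot this))

section rot

variable {u : V} {n : ℕ} {x : Fin (n + 1) → V} {w : Fin (n + 1) → CT}

theorem dum_off (hY : Reg T Y D C) {e : V} (he : ¬ Re D e) : e ∉ C := fun h => he (hY.re e h)

/-- the next neighbour is in the region -/
theorem walk1 (hT : Ts T D a b c) (hY : Reg T Y D C) (R : Rot T D u n x w) {k : Fin (n + 1)}
    (h : ∃ t, (u, x k, t) ∈ Y) : x (k + 1) ∈ verts Y := by
  have cx := hT.pl.disc.cx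
  have cY := hY.disc.cx
  obtain ⟨t, ht⟩ := h
  rcases rot_suc R k with k1 | ⟨e, e1, e2, e3⟩
  · have := cx.uniq k1 (hY.sub ht)
    subst this
    exact vert1 (cY.rot (cY.rot ht))
  · have := cx.uniq e2 (hY.sub ht)
    subst this
    have he : e ∈ verts Y := vert1 (cY.rot (cY.rot ht))
    have := reg_all hY he (dum_off hY e1) (cx.rot e3)
    exact vert2 cY this

/-- the faces at the next neighbour -/
theorem walk2 (hT : Ts T D a b c) (hY : Reg T Y D C) (R : Rot T D u n x w) {k : Fin (n + 1)}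
    (h : x k ∈ verts Y) (hC : x k ∉ C) : ∃ t, (u, x k, t) ∈ Y := by
  have cx := hT.pl.disc.cx
  have cY := hY.disc.cx
  have key : ∀ t, (u, x k, t) ∈ T → (u, x k, t) ∈ Y := by
    intro t ht
    exact cY.rot (cY.rot (reg_all hY h hC (cx.rot ht)))
  rcases rot_suc R k with k1 | ⟨e, e1, e2, e3⟩
  · exact ⟨_, key _ k1⟩
  · exact ⟨_, key _ e2⟩

end rot

end Pool.Agent.H32.G4
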