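import Pool.Agent.H32.G4.Cyc5
import Pool.Agent.H65.G4.Ears
import Pool.Agent.H72.G4.Row
import Pool.Agent.H80.G4.Deg3

/-!
# The hypotheses of a path contraction from the context of the discharging

`pcb`, `pch` : the facts of the old digraph for a quad `u, o, s, i` all of whose corners are inner
in the region, with the edges `o s` and `s i` not special.
`noF` : a neighbour `x` of `u` which is not adjacent to `o`, `i` has no common neighbour with `s`
except `u`.
-/

set_option autoImplicit false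

namespace Pool.Agent.H32.G4

open Relation Pool.Agent.H13.DA Pool.Agent.H72.G4 Pool.Agent.H21.G4 Pool.Agent.H13.G4
  Pool.Agent.H65.G4 Pool.Agent.H96.G4 Pool.Agent.H80.G4

variable {V : Type*} [DecidableEq V] {T X Y : Finset (V × V × V)} {D : V → V → Prop} {a b c : V}
  {Z C : List V}

/-- the context in the form used here -/
theorem ctx_cx5 [Infinite V] (hM : MCw T D a b c) (hT : Ts T D a b c)
    (hC : Ctx T X D a b c Z) : Cx5 T X D Z := by
  refine ⟨hC.reg, hC.good, ?_, ?_, ?_⟩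
  · intro v hv hvr hvZ p q r
    by_contra hcon
    refine red_deg3 Pool.Agent.H13.G4.fanT hM hT (hC.reg.inner hT hv hvZ) hvr (x := p) (y := q)
      (z := r) (fun u hu => ?_)
    by_contra h
    rw [not_or, not_or] at h
    exact hcon ⟨u, hu, h.1, h.2.1, h.2.2⟩
  · intro y z hy hz h
    rcases hC.bnd with ⟨rfl, rfl⟩ | ⟨hR, _⟩
    · exact hT.pl.ar_adj h
    · rcases hR.chl.ch y z hy hz h with k | k
      · exact Or.inl ((hC.reg.bd.iff y z).2 k).1
      · exact Or.inr ((hC.reg.bd.iff z y).2 k).1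
  · intro Y C h1 h2 h3 h4 h5 v1 v2 a1 a2 a3 b1 b2 b3
    by_contra hne
    have k1 := hC.five Y C h1 h2 h3 h4 h5
    have k2 := nin_two' (X := Y) (Z := C) hne ⟨a1, a2, a3⟩ ⟨b1, b2, b3⟩
    omega

section

variable {u o s i d : V}

omit [DecidableEq V] in
/-- the two orientations of a quad -/
theorem quad_ori (hT : Ts T D a b c) (h : Qd T D u o s i d) :
    ((u, o, d) ∈ T ∧ (o, s, d) ∈ T ∧ (s, i, d) ∈ T ∧ (i, u, d) ∈ T) ∨
    ((o, u, d) ∈ T ∧ (s, o, d) ∈ T ∧ (i, s, d) ∈ T ∧ (u, i, d) ∈ T) := by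
  have cx := hT.pl.disc.cx
  obtain ⟨e1, e2, e3, e4, e5, e6, e7, e8, e9, e10⟩ := h.ne hT
  have hdT : ¬ Tr a b c d := fun k => h.nd (tr_re hT.out k)
  have f : ∀ {x y : V}, Adj T d x → D x y → Adj T d y → Face T d x y := by
    intro x y k1 k2 k3
    rcases hT.fc d x y k1 (hT.pl.adj _ _ k2) k3.symm with k | ⟨k, _⟩
    · exact k
    · exact absurd k hdT
  have a1 := (h.adj u).2 (Or.inl rfl)
  have a2 := (h.adj o).2 (Or.inr (Or.inl rfl))
  have a3 := (h.adj s).2 (Or.inr (Or.inr (Or.inl rfl)))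
  have a4 := (h.adj i).2 (Or.inr (Or.inr (Or.inr rfl)))
  have g1 := f a1 h.uo a2
  have g2 := f a2 h.os a3
  have g3 := f a3 h.si a4
  have g4 := f a4 h.iu a1
  rcases g1 with g1 | g1
  · left
    have g2' : (d, o, s) ∈ T := g2.resolve_right (fun k => e2 (uniq2 cx g1 k))
    have g3' : (d, s, i) ∈ T := g3.resolve_right (fun k => e6 (uniq2 cx g2' k))
    have g4' : (d, i, u) ∈ T := g4.resolve_right (fun k => e2 (uniq2 cx g3' k).symm)
    exact ⟨cx.rot g1, cx.rot g2', cx.rot g3', cx.rot g4'⟩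
  · right
    have g2' : (d, s, o) ∈ T := g2.resolve_left (fun k => e2 (cx.uniq g1 k))
    have g3' : (d, i, s) ∈ T := g3.resolve_left (fun k => e6 (cx.uniq g2' k))
    have g4' : (d, u, i) ∈ T := g4.resolve_left (fun k => e2 (cx.uniq g3' k).symm)
    exact ⟨cx.rot g1, cx.rot g2', cx.rot g3', cx.rot g4'⟩

/-- if the only corner at the boundary vertex `y` outside the region is a dummy, then all
neighbours of `y` are in the region -/
theorem link [Infinite V] (hT : Ts T D a b c) (hY : Reg T Y D C) {y p r : V}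
    (hy : ¬ Tr a b c y) (hyr : Re D y) (c1 : Cyc C y r) (hd : ¬ Re D d) (hd1 : (y, p, d) ∈ T)
    (hd2 : (y, d, r) ∈ T) (hC : ∀ z, z ∈ C → Ar D y z → z = p ∨ z = r) :
    ∀ z, Ar D y z → z ∈ verts Y := by
  have cx := hT.pl.disc.cx
  have cY := hY.disc.cx
  obtain ⟨n, x, w, R⟩ := exists_rot hT hy hyr
  obtain ⟨t, ht⟩ := reg_start hY c1
  have hr : r ∈ verts Y := vert2 cY ht
  have arr : Ar D y r := bd_ar hT hY c1
  obtain ⟨k0, hk0⟩ := (R.nb r).1 arr
  intro z hz
  obtain ⟨k1, rfl⟩ := (R.nb z).1 hz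
  refine fin_closed (P := fun k => x k ∈ verts Y) (k := k0) (by rw [← hk0]; exact hr) ?_ k1
  intro k hk
  by_cases hkC : x k ∈ C
  · rcases hC _ hkC ((R.nb _).2 ⟨k, rfl⟩) with e | e
    · rcases rot_suc R k with k2 | ⟨f, f1, f2, f3⟩
      · rw [e] at k2
        have := cx.uniq hd1 k2
        exact absurd (this ▸ rot_re R (k + 1)) hd
      · rw [e] at f2
        have := cx.uniq hd1 f2
        subst this
        have := cx.uniq hd2 f3
        rw [← this]
        exact hr
    · exact walk1 hT hY R ⟨t, by rw [e]; exact ht⟩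
  · exact walk1 hT hY R (walk2 hT hY R hk hkC)

/-- two dummies at `u` which are both adjacent to `o` and `i` -/
theorem two_closed {n : ℕ} {x : Fin (n + 1) → V} {w : Fin (n + 1) → CT} (cx : IsCx T)
    (h : Rot T D u n x w) {m : V} (ho : Ar D u o) (hi : Ar D u i) (hoi : o ≠ i)
    (hd : ¬ Re D d) (hm : ¬ Re D m) (hdm : d ≠ m) (f1 : Face T u o d) (f2 : Face T u i d)
    (f3 : Face T u o m) (f4 : Face T u i m) (y : V) (hy : Ar D u y) : y = o ∨ y = i := by
  have key : Suc T D u o i ∧ Suc T D u i o := by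
    rcases f1 with f1 | f1
    · have g3 := f3.resolve_left (fun k => hdm (cx.uniq f1 k))
      have g2 := f2.resolve_left (fun k => hoi (uniq2 cx f1 k))
      have g4 := f4.resolve_right (fun k => hdm (uniq2 cx g2 k))
      exact ⟨Or.inr ⟨d, hd, f1, g2⟩, Or.inr ⟨m, hm, g4, g3⟩⟩
    · have g3 := f3.resolve_right (fun k => hdm (uniq2 cx f1 k))
      have g2 := f2.resolve_right (fun k => hoi (cx.uniq f1 k))
      have g4 := f4.resolve_left (fun k => hdm (cx.uniq g2 k))
      exact ⟨Or.inr ⟨m, hm, g3, g4⟩, Or.inr ⟨d, hd, g2, f1⟩⟩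
  have ro := (ar_re ho).2
  have ri := (ar_re hi).2
  obtain ⟨k1, hk1⟩ := (h.nb _).1 ho
  obtain ⟨l, rfl⟩ := (h.nb _).1 hy
  refine fin_closed (P := fun k => x k = o ∨ x k = i) (k := k1) (Or.inl hk1.symm) ?_ l
  rintro k (hk | hk)
  · exact Or.inr (rot_suc_eq cx h ri (by rw [hk]; exact key.1)).symm
  · exact Or.inl (rot_suc_eq cx h ro (by rw [hk]; exact key.2)).symm

theorem Inr.tr (hT : Ts T D a b c) (H : Cx5 T X D Z) {v : V} (h : Inr X D Z v) :
    ¬ Tr a b c v := H.reg.inner hT h.mem h.off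

theorem Inr.gd (hT : Ts T D a b c) (H : Cx5 T X D Z) {v : V} (h : Inr X D Z v) :
    Gd T D a b c v := ⟨h.tr hT H, H.good v h.mem h.re h.off⟩

/-- **the common neighbours of `o, i` and of `u, s`** -/
theorem comm [Infinite V] (hT : Ts T D a b c) (H : Cx5 T X D Z) (hu : Inr X D Z u)
    (h : Qd T D u o s i d) (h1 : ∃ z, Re D z ∧ Face T o s z) (h2 : ∃ z, Re D z ∧ Face T s i z) :
    (∀ q, Adj T o q → Adj T i q → q = u ∨ q = s ∨ q = d) ∧
      ∀ q, Adj T u q → Adj T s q → q = o ∨ q = i ∨ q = d := by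
  have cx := hT.pl.disc.cx
  have has := hT.pl.asymm
  have htr := hT.pl.tri
  obtain ⟨e1, e2, e3, e4, e5, e6, e7, e8, e9, e10⟩ := h.ne hT
  have huT := hu.tr hT H
  obtain ⟨n, x, w, R⟩ := exists_rot hT huT hu.re
  have auo : Ar D u o := Or.inl h.uo
  have aui : Ar D u i := Or.inr h.iu
  have a1 := (h.adj u).2 (Or.inl rfl)
  have a2 := (h.adj o).2 (Or.inr (Or.inl rfl))
  have a4 := (h.adj i).2 (Or.inr (Or.inr (Or.inr rfl)))
  have hoi : Lnk T D u o i :=
    lnk_of_dum hT huT (hT.pl.ar_adj auo) (hT.pl.ar_adj aui) h.nd a1 a2 a4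
  have fa : ∀ {y z : V}, Adj T u y → Adj T y z → Adj T u z → Face T u y z := by
    intro y z k1 k2 k3
    rcases hT.fc u y z k1 k2 k3.symm with k | ⟨k, _⟩
    · exact k
    · exact absurd k huT
  have deg : ∀ m, Adj T m u → Adj T m o → Adj T m i → m = d := by
    intro m k1 k2 k3
    by_contra hmd
    by_cases hm : Re D m
    · have aum : Ar D u m := hT.re _ _ k1.symm hu.re hm
      have hom : o ≠ m := (adj_vert cx k2).2.2.symm
      have him : i ≠ m := (adj_vert cx k3).2.2.symm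
      obtain ⟨y, y1, y2, y3, y4⟩ := H.deg u hu.mem hu.re hu.off o m i
      rcases tri_closed cx R auo aum aui hom e6 him.symm
        (lnk_of_adj hT huT (hT.pl.ar_adj auo) k1.symm k2.symm) hoi
        (lnk_of_adj hT huT k1.symm (hT.pl.ar_adj aui) k3) y y1 with k | k | k
      · exact y2 k
      · exact y3 k
      · exact y4 k
    · obtain ⟨y, y1, y2, y3, y4⟩ := H.deg u hu.mem hu.re hu.off o i i
      rcases two_closed cx R auo aui e6 h.nd hm (Ne.symm hmd)
        (fa (hT.pl.ar_adj auo) a2.symm a1.symm) (fa (hT.pl.ar_adj aui) a4.symm a1.symm)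
        (fa (hT.pl.ar_adj auo) k2.symm k1.symm) (fa (hT.pl.ar_adj aui) k3.symm k1.symm) y y1 with
        k | k
      · exact y2 k
      · exact y3 k
  have hp : Pcf T D a b c u d o s i := by
    refine ⟨huT, hu.re, H.good u hu.mem hu.re hu.off, h.nd, h.adj, auo, Or.inl h.os, Or.inl h.si,
      Or.inl h.iu, ?_, ?_, e2, e6, h1, h2, deg⟩
    · rintro (k | k)
      · exact htr _ _ _ h.si h.iu k
      · exact htr _ _ _ h.uo h.os k
    · rintro (k | k)
      · exact htr _ _ _ h.iu h.uo k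
      · exact htr _ _ _ h.os h.si k
  exact ⟨fun q k1 k2 => hp.comm_oi hT k1 k2, fun q k1 k2 => hp.comm_us hT k1 k2⟩

/-- the sides of a chordless 5-cycle through `u, o`: `hA` for the region with `d`, `hB` for a
region such that the corner `d` is the only one outside at `y` -/
theorem noF [Infinite V] (hT : Ts T D a b c) (H : Cx5 T X D Z) (hu : Inr X D Z u)
    (ho : Inr X D Z o) (hs : Inr X D Z s) (hi : Inr X D Z i) (h : Qd T D u o s i d)
    (n2 : ∀ q, Adj T u q → Adj T s q → q = o ∨ q = i ∨ q = d) {x m : V} (hx : Ar D u x)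
    (hxo : x ≠ o) (hxi : x ≠ i) (no : ¬ Ar D x o) (ni : ¬ Ar D x i) (hsm : Ar D s m)
    (hmx : Ar D m x) : m = u := by
  by_contra hmu
  have cx := hT.pl.disc.cx
  have htr := hT.pl.tri
  obtain ⟨e1, e2, e3, e4, e5, e6, e7, e8, e9, e10⟩ := h.ne hT
  have irr : ∀ x, ¬ Ar D x x := fun x k => (ar_ne cx hT.pl k) rfl
  have aj : ∀ {x y : V}, Ar D x y → Adj T x y := fun k => hT.pl.ar_adj k
  have rm : Re D m := (ar_re hmx).1
  have rx : Re D x := (ar_re hmx).2
  have auo : Ar D u o := Or.inl h.uo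
  have aui : Ar D u i := Or.inr h.iu
  have aos : Ar D o s := Or.inl h.os
  have asi : Ar D s i := Or.inl h.si
  have a1 := (h.adj u).2 (Or.inl rfl)
  have a2 := (h.adj o).2 (Or.inr (Or.inl rfl))
  have a3 := (h.adj s).2 (Or.inr (Or.inr (Or.inl rfl)))
  have a4 := (h.adj i).2 (Or.inr (Or.inr (Or.inr rfl)))
  have nus : ¬ Ar D u s := by
    rintro (k | k)
    · exact htr _ _ _ h.si h.iu k
    · exact htr _ _ _ h.uo h.os k
  have noi : ¬ Ar D o i := by
    rintro (k | k)
    · exact htr _ _ _ h.iu h.uo k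
    · exact htr _ _ _ h.os h.si k
  have mo : m ≠ o := fun e => no (ar_symm (e ▸ hmx))
  have mi : m ≠ i := fun e => ni (ar_symm (e ▸ hmx))
  have md : m ≠ d := fun e => h.nd (e ▸ rm)
  have ms : m ≠ s := (ar_ne cx hT.pl hsm).symm
  have mx : m ≠ x := ar_ne cx hT.pl hmx
  have xs : x ≠ s := fun e => nus (e ▸ hx)
  have xd : x ≠ d := fun e => h.nd (e ▸ rx)
  have xu : x ≠ u := (ar_ne cx hT.pl hx).symm
  have num : ¬ Ar D u m := by
    intro k
    rcases n2 m (aj k) (aj hsm) with e | e | e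
    · exact mo e
    · exact mi e
    · exact md e
  have nsx : ¬ Ar D s x := by
    intro k
    rcases n2 x (aj hx) (aj k) with e | e | e
    · exact hxo e
    · exact hxi e
    · exact xd e
  -- `m` is not adjacent to `o`, `i`
  have nom : ∀ {o' : V}, Inr X D Z o' → Ar D u o' → Ar D o' s → Adj T d o' → x ≠ o' →
      ¬ Ar D x o' → m ≠ o' → ¬ Ar D o' m := by
    intro o' ho' b1 b2 b3 b4 b5 b6 k
    rcases H.good u hu.mem hu.re hu.off o' x m b1 hx b4.symm (fun k => b5 (ar_symm k)) hmu k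
      (ar_symm hmx) with q | ⟨e, q1, q2, q3, q4, q5⟩
    · exact num q
    · have huT' := ho'.tr hT H
      obtain ⟨n, x', w, R⟩ := exists_rot hT huT' ho'.re
      obtain ⟨y, y1, y2, y3, y4⟩ := H.deg o' ho'.mem ho'.re ho'.off u m s
      rcases tri_closed cx R (ar_symm b1) k b2 (Ne.symm hmu) e2 ms
        (lnk_of_dum hT huT' (aj b1).symm (aj k) q1 q3 q2 q5)
        (lnk_of_dum hT huT' (aj b1).symm (aj b2) h.nd b3 a1 a3)
        (lnk_of_adj hT huT' (aj k) (aj b2) (aj hsm).symm) y y1 with k | k | k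
      · exact y2 k
      · exact y3 k
      · exact y4 k
  have n_om : ¬ Ar D o m := nom ho auo aos a2 hxo no mo
  have n_im : ¬ Ar D i m := nom hi aui (ar_symm asi) a4 hxi ni mi
  have xX : x ∈ verts X := (adj_vert H.reg.disc.cx (H.nbX hT hu.mem hu.off (aj hx))).2.1
  have mX : m ∈ verts X := (adj_vert H.reg.disc.cx (H.nbX hT hs.mem hs.off (aj hsm))).2.1
  obtain ⟨Y, y1, y2, y3⟩ := H.cut hT hu ho.mem hs.mem mX xX auo aos hsm hmx (ar_symm hx) nus num
    n_om (fun k => no (ar_symm k)) nsx e2 (Ne.symm hmu) mo.symm hxo.symm xs.symm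
  have off : ∀ z, z ≠ u → z ≠ o → z ≠ s → z ≠ m → z ≠ x → z ∉ [u, o, s, m, x] := by
    intro z k1 k2 k3 k4 k5
    simp [k1, k2, k3, k4, k5]
  -- the region without `d`
  have key1 : (∀ z, Ar D o z → z ∈ verts Y) → False := by
    intro k
    obtain ⟨z1, b1, b2, b3, -⟩ := H.deg o ho.mem ho.re ho.off u s s
    obtain ⟨z2, c1, c2, c3, c4⟩ := H.deg o ho.mem ho.re ho.off u s z1
    have g : ∀ z, Ar D o z → z ≠ u → z ≠ s → z ∉ [u, o, s, m, x] := by
      intro z g1 g2 g3
      refine off z g2 (ar_ne cx hT.pl g1).symm g3 (fun e => n_om (e ▸ g1)) (fun e => no ?_)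
      exact ar_symm (e ▸ g1)
    exact c4 (y3 z2 z1 (k _ c1) (ar_re c1).2 (g _ c1 c2 c3) (k _ b1) (ar_re b1).2 (g _ b1 b2 b3))
  -- the region with `d`
  have key2 : ∀ C', Reg T Y D C' → (∀ v, v ∈ C' → v ∈ [u, o, s, m, x]) → d ∈ verts Y →
      False := by
    intro C' r hC' hd
    have hdC : d ∉ C' := dum_off r h.nd
    have hiY : i ∈ verts Y := reg_nb hT r hd hdC a4
    have hiC : i ∉ [u, o, s, m, x] := off i e3.symm e6.symm e8.symm mi.symm hxi.symm
    obtain ⟨z, b1, b2, b3, -⟩ := H.deg i hi.mem hi.re hi.off u s s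
    have hzY : z ∈ verts Y := reg_nb hT r hiY (fun k => hiC (hC' _ k)) (aj b1)
    have hzC : z ∉ [u, o, s, m, x] := by
      refine off z b2 (fun e => noi ?_) b3 (fun e => n_im (e ▸ b1)) (fun e => ni ?_)
      · exact ar_symm (e ▸ b1)
      · exact ar_symm (e ▸ b1)
    exact (ar_ne cx hT.pl b1) (y3 i z hiY hi.re hiC hzY (ar_re b1).2 hzC)
  have oT := ho.tr hT H
  have memC : ∀ v, v ∈ [u, x, m, s, o] → v ∈ [u, o, s, m, x] := by
    intro v
    simp only [List.mem_cons, List.not_mem_nil, or_false]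
    tauto
  have nbo : ∀ z, z ∈ [u, o, s, m, x] → Ar D o z → z = u ∨ z = s := by
    intro z hz k
    simp only [List.mem_cons, List.not_mem_nil, or_false] at hz
    rcases hz with e | e | e | e | e
    · exact Or.inl e
    · exact absurd (e ▸ k) (irr _)
    · exact Or.inr e
    · exact absurd (e ▸ k) n_om
    · exact absurd (ar_symm (e ▸ k)) no
  rcases y2 with r | r <;> rcases quad_ori hT h with ⟨o1, o2, o3, o4⟩ | ⟨o1, o2, o3, o4⟩
  · obtain ⟨t, ht⟩ := reg_start r (cyc5_iff.2 (Or.inl ⟨rfl, rfl⟩))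
    have := cx.uniq o1 (r.sub ht)
    subst this
    exact key2 _ r (fun v k => k) (vert3 r.disc.cx ht)
  · exact key1 (link hT r oT ho.re (cyc5_iff.2 (Or.inr (Or.inl ⟨rfl, rfl⟩))) h.nd o1
      (cx.rot o2) nbo)
  · exact key1 (link hT r oT ho.re
      (cyc5_iff.2 (Or.inr (Or.inr (Or.inr (Or.inr ⟨rfl, rfl⟩))))) h.nd o2 (cx.rot o1)
      (fun z k k' => (nbo z (memC z k) k').symm))
  · obtain ⟨t, ht⟩ := reg_start r (cyc5_iff.2 (Or.inr (Or.inr (Or.inr (Or.inr ⟨rfl, rfl⟩)))))
    have := cx.uniq o1 (r.sub ht)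
    subst this
    exact key2 _ r memC (vert3 r.disc.cx ht)

/-- an undirected path of length three between `o` and `i` -/
theorem ear3u [Infinite V] (hT : Ts T D a b c) (H : Cx5 T X D Z) (hu : Inr X D Z u)
    (ho : Inr X D Z o) (hs : Inr X D Z s) (hi : Inr X D Z i) (h : Qd T D u o s i d)
    (n1 : ∀ q, Adj T o q → Adj T i q → q = u ∨ q = s ∨ q = d)
    {y z : V} (hyu : y ≠ u) (hzu : z ≠ u) (hy : ¬ Wq o s i d y) (hz : ¬ Wq o s i d z)
    (h1 : Ar D o y) (h2 : Ar D y z) (h3 : Ar D z i) :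
    (Ar D u y ∧ Ar D u z) ∨ (Ar D s y ∧ Ar D s z) := by
  have cx := hT.pl.disc.cx
  have htr := hT.pl.tri
  obtain ⟨e1, e2, e3, e4, e5, e6, e7, e8, e9, e10⟩ := h.ne hT
  have irr : ∀ x, ¬ Ar D x x := fun x k => (ar_ne cx hT.pl k) rfl
  have aj : ∀ {x y : V}, Ar D x y → Adj T x y := fun k => hT.pl.ar_adj k
  have auo : Ar D u o := Or.inl h.uo
  have aui : Ar D u i := Or.inr h.iu
  have aos : Ar D o s := Or.inl h.os
  have asi : Ar D s i := Or.inl h.si
  have a1 := (h.adj u).2 (Or.inl rfl)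
  have a2 := (h.adj o).2 (Or.inr (Or.inl rfl))
  have a3 := (h.adj s).2 (Or.inr (Or.inr (Or.inl rfl)))
  have a4 := (h.adj i).2 (Or.inr (Or.inr (Or.inr rfl)))
  have nus : ¬ Ar D u s := by
    rintro (k | k)
    · exact htr _ _ _ h.si h.iu k
    · exact htr _ _ _ h.uo h.os k
  have noi : ¬ Ar D o i := by
    rintro (k | k)
    · exact htr _ _ _ h.iu h.uo k
    · exact htr _ _ _ h.os h.si k
  have yo : y ≠ o := fun e => hy (Or.inl e)
  have ys : y ≠ s := fun e => hy (Or.inr (Or.inl e))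
  have yi : y ≠ i := fun e => hy (Or.inr (Or.inr (Or.inl e)))
  have yd : y ≠ d := fun e => hy (Or.inr (Or.inr (Or.inr e)))
  have zo : z ≠ o := fun e => hz (Or.inl e)
  have zs : z ≠ s := fun e => hz (Or.inr (Or.inl e))
  have zi : z ≠ i := fun e => hz (Or.inr (Or.inr (Or.inl e)))
  have zd : z ≠ d := fun e => hz (Or.inr (Or.inr (Or.inr e)))
  have niy : ¬ Ar D i y := by
    intro k
    rcases n1 y (aj h1) (aj k) with e | e | e
    · exact hyu e
    · exact ys e
    · exact yd e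
  have noz : ¬ Ar D o z := by
    intro k
    rcases n1 z (aj k) (aj h3).symm with e | e | e
    · exact hzu e
    · exact zs e
    · exact zd e
  have huT := hu.tr hT H
  obtain ⟨n, x, w, R⟩ := exists_rot hT huT hu.re
  have loi : Lnk T D u o i := lnk_of_dum hT huT (aj auo) (aj aui) h.nd a1 a2 a4
  by_cases k1 : Ar D u y
  · by_cases k2 : Ar D u z
    · exact Or.inl ⟨k1, k2⟩
    · exfalso
      rcases H.good u hu.mem hu.re hu.off y i z k1 aui yi (fun k => niy (ar_symm k)) hzu h2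
        (ar_symm h3) with q | ⟨e, q1, q2, q3, q4, q5⟩
      · exact k2 q
      · obtain ⟨t, t1, t2, t3, t4⟩ := H.deg u hu.mem hu.re hu.off o y i
        rcases tri_closed cx R auo k1 aui yo.symm e6 yi (lnk_of_adj hT huT (aj auo) (aj k1) (aj h1))
          loi (lnk_of_dum hT huT (aj k1) (aj aui) q1 q2 q3 q4) t t1 with k | k | k
        · exact t2 k
        · exact t3 k
        · exact t4 k
  · by_cases k2 : Ar D u z
    · exfalso
      rcases H.good u hu.mem hu.re hu.off o z y auo k2 zo.symm noz hyu h1 (ar_symm h2) with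
        q | ⟨e, q1, q2, q3, q4, q5⟩
      · exact k1 q
      · obtain ⟨t, t1, t2, t3, t4⟩ := H.deg u hu.mem hu.re hu.off o z i
        rcases tri_closed cx R auo k2 aui zo.symm e6 zi
          (lnk_of_dum hT huT (aj auo) (aj k2) q1 q2 q3 q4) loi
          (lnk_of_adj hT huT (aj k2) (aj aui) (aj h3)) t t1 with k | k | k
        · exact t2 k
        · exact t3 k
        · exact t4 k
    · right
      by_contra hcon
      have yX : y ∈ verts X := (adj_vert H.reg.disc.cx (H.nbX hT ho.mem ho.off (aj h1))).2.1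
      have zX : z ∈ verts X :=
        (adj_vert H.reg.disc.cx (H.nbX hT hi.mem hi.off (aj h3).symm)).2.1
      obtain ⟨Y, y1, y2, y3⟩ := H.cut hT hu ho.mem yX zX hi.mem auo h1 h2 h3 (ar_symm aui) k1 k2
        noz noi (fun k => niy (ar_symm k)) (Ne.symm hyu) (Ne.symm hzu) zo.symm e6 yi
      have off : ∀ t, t ≠ u → t ≠ o → t ≠ y → t ≠ z → t ≠ i → t ∉ [u, o, y, z, i] := by
        intro t k1 k2 k3 k4 k5
        simp [k1, k2, k3, k4, k5]
      -- the region with `d`
      have key2 : ∀ C', Reg T Y D C' → (∀ v, v ∈ C' → v ∈ [u, o, y, z, i]) → d ∈ verts Y →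
          False := by
        intro C' r hC' hd
        have hdC : d ∉ C' := dum_off r h.nd
        have hsY : s ∈ verts Y := reg_nb hT r hd hdC a3
        have hsC : s ∉ [u, o, y, z, i] := off s e2.symm e5.symm ys.symm zs.symm e8
        have g : ∃ t, Ar D s t ∧ t ≠ o ∧ t ≠ i ∧ t ≠ y ∧ t ≠ z := by
          by_cases q : Ar D s y
          · have q' : ¬ Ar D s z := fun k => hcon ⟨q, k⟩
            obtain ⟨t, t1, t2, t3, t4⟩ := H.deg s hs.mem hs.re hs.off o i y
            exact ⟨t, t1, t2, t3, t4, fun e => q' (e ▸ t1)⟩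
          · obtain ⟨t, t1, t2, t3, t4⟩ := H.deg s hs.mem hs.re hs.off o i z
            exact ⟨t, t1, t2, t3, fun e => q (e ▸ t1), t4⟩
        obtain ⟨t, t1, t2, t3, t4, t5⟩ := g
        have htY : t ∈ verts Y := reg_nb hT r hsY (fun k => hsC (hC' _ k)) (aj t1)
        have htC : t ∉ [u, o, y, z, i] :=
          off t (fun e => nus (ar_symm (e ▸ t1))) t2 t4 t5 t3
        exact (ar_ne cx hT.pl t1) (y3 s t hsY hs.re hsC htY (ar_re t1).2 htC)
      -- the region without `d`
      have key1 : (∀ z, Ar D u z → z ∈ verts Y) → False := by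
        intro k
        obtain ⟨z1, b1, b2, b3, -⟩ := H.deg u hu.mem hu.re hu.off o i i
        obtain ⟨z2, c1, c2, c3, c4⟩ := H.deg u hu.mem hu.re hu.off o i z1
        have g : ∀ t, Ar D u t → t ≠ o → t ≠ i → t ∉ [u, o, y, z, i] := by
          intro t g1 g2 g3
          exact off t (ar_ne cx hT.pl g1).symm g2 (fun e => k1 (e ▸ g1)) (fun e => k2 (e ▸ g1)) g3
        exact c4 (y3 z2 z1 (k _ c1) (ar_re c1).2 (g _ c1 c2 c3) (k _ b1) (ar_re b1).2
          (g _ b1 b2 b3))
      have memC : ∀ v, v ∈ [u, i, z, y, o] → v ∈ [u, o, y, z, i] := by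
        intro v
        simp only [List.mem_cons, List.not_mem_nil, or_false]
        tauto
      have nbu : ∀ t, t ∈ [u, o, y, z, i] → Ar D u t → t = o ∨ t = i := by
        intro t ht k
        simp only [List.mem_cons, List.not_mem_nil, or_false] at ht
        rcases ht with e | e | e | e | e
        · exact absurd (e ▸ k) (irr _)
        · exact Or.inl e
        · exact absurd (e ▸ k) k1
        · exact absurd (e ▸ k) k2
        · exact Or.inr e
      rcases y2 with r | r <;> rcases quad_ori hT h with ⟨o1, o2, o3, o4⟩ | ⟨o1, o2, o3, o4⟩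
      · obtain ⟨t, ht⟩ := reg_start r (cyc5_iff.2 (Or.inl ⟨rfl, rfl⟩))
        have := cx.uniq o1 (r.sub ht)
        subst this
        exact key2 _ r (fun v k => k) (vert3 r.disc.cx ht)
      · exact key1 (link hT r huT hu.re (cyc5_iff.2 (Or.inl ⟨rfl, rfl⟩)) h.nd o4
          (cx.rot o1) (fun t k k' => (nbu t k k').symm))
      · exact key1 (link hT r huT hu.re (cyc5_iff.2 (Or.inl ⟨rfl, rfl⟩)) h.nd o1 (cx.rot o4)
          (fun t k k' => nbu t (memC t k) k'))
      · obtain ⟨t, ht⟩ := reg_start r (cyc5_iff.2 (Or.inl ⟨rfl, rfl⟩))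
        have := cx.uniq o4 (r.sub ht)
        subst this
        exact key2 _ r memC (vert3 r.disc.cx ht)

end

end Pool.Agent.H32.G4
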