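import Pool.Agent.H72.G4.Words
import Pool.Agent.H13.G4.Pc
import Pool.Agent.H13.G4.Bdc

/-!
# Consecutive real neighbours

`Suc T D v y y'` : `y'` is the next real neighbour after `y` in the rotation at `v`.
`Rot.suc_unique`, `suc_unique'`, `tri_closed` : three real neighbours of an inner vertex which are
pairwise consecutive are all its real neighbours.
-/

set_option autoImplicit false

namespace Pool.Agent.H32.G4

open Relation Pool.Agent.H13.DA Pool.Agent.H72.G4 Pool.Agent.H21.G4 Pool.Agent.H13.G4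

variable {V : Type*} [DecidableEq V] {T X : Finset (V × V × V)} {D : V → V → Prop} {a b c : V}

/-- `y'` follows `y` in the rotation at `v` -/
def Suc (T : Finset (V × V × V)) (D : V → V → Prop) (v y y' : V) : Prop :=
  (v, y, y') ∈ T ∨ ∃ e, ¬ Re D e ∧ (v, y, e) ∈ T ∧ (v, e, y') ∈ T

/-- `y` and `y'` are consecutive at `v` -/
def Lnk (T : Finset (V × V × V)) (D : V → V → Prop) (v y y' : V) : Prop :=
  Face T v y y' ∨ ∃ e, ¬ Re D e ∧ Face T v y e ∧ Face T v y' e

omit [DecidableEq V] in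
theorem lnk_symm {v y y' : V} (h : Lnk T D v y y') : Lnk T D v y' y := by
  rcases h with h | ⟨e, h1, h2, h3⟩
  · exact Or.inl h.symm
  · exact Or.inr ⟨e, h1, h3, h2⟩

omit [DecidableEq V] in
/-- uniqueness at the second place -/
theorem uniq2 (cx : IsCx T) {v x y y' : V} (h : (v, y, x) ∈ T) (h' : (v, y', x) ∈ T) : y = y' :=
  cx.uniq (cx.rot (cx.rot h)) (cx.rot (cx.rot h'))

omit [DecidableEq V] in
theorem lnk_suc (cx : IsCx T) {v y y' : V} (hne : y ≠ y') (h : Lnk T D v y y') :
    Suc T D v y y' ∨ Suc T D v y' y := by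
  rcases h with (h | h) | ⟨e, h1, h2 | h2, h3 | h3⟩
  · exact Or.inl (Or.inl h)
  · exact Or.inr (Or.inl h)
  · exact absurd (uniq2 cx h2 h3) hne
  · exact Or.inl (Or.inr ⟨e, h1, h2, h3⟩)
  · exact Or.inr (Or.inr ⟨e, h1, h3, h2⟩)
  · exact absurd (cx.uniq h2 h3) hne

omit [DecidableEq V] in
/-- the predecessor is unique -/
theorem suc_unique' (cx : IsCx T) {v x y y' : V} (hy : Re D y) (hy' : Re D y')
    (h : Suc T D v y x) (h' : Suc T D v y' x) : y = y' := by
  rcases h with h | ⟨e, e1, e2, e3⟩ <;> rcases h' with h' | ⟨f, f1, f2, f3⟩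
  · exact uniq2 cx h h'
  · have := uniq2 cx h f3
    exact absurd (this ▸ hy) f1
  · have := uniq2 cx e3 h'
    exact absurd (this ▸ hy') e1
  · have := uniq2 cx e3 f3
    subst this
    exact uniq2 cx e2 f2

omit [DecidableEq V] in
/-- the successor is unique -/
theorem suc_unique (cx : IsCx T) {v x y y' : V} (hy : Re D y) (hy' : Re D y')
    (h : Suc T D v x y) (h' : Suc T D v x y') : y = y' := by
  rcases h with h | ⟨e, e1, e2, e3⟩ <;> rcases h' with h' | ⟨f, f1, f2, f3⟩
  · exact cx.uniq h h'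
  · have := cx.uniq h f2
    exact absurd (this ▸ hy) f1
  · have := cx.uniq e2 h'
    exact absurd (this ▸ hy') e1
  · have := cx.uniq e2 f2
    subst this
    exact cx.uniq e3 f3

section rot

variable {v : V} {n : ℕ} {x : Fin (n + 1) → V} {w : Fin (n + 1) → CT}

omit [DecidableEq V] in
theorem rot_re (h : Rot T D v n x w) (k : Fin (n + 1)) : Re D (x k) :=
  (ar_re ((h.nb _).2 ⟨k, rfl⟩)).2

/-- the next real neighbour -/
theorem rot_suc (h : Rot T D v n x w) (k : Fin (n + 1)) : Suc T D v (x k) (x (k + 1)) := by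
  by_cases hk : w k = CT.q
  · have := h.cor k
    rw [hk] at this
    obtain ⟨⟨d, d1, d2, d3⟩, _⟩ := this
    exact Or.inr ⟨d, d1, d2, d3⟩
  · exact Or.inl ((h.cor k).ne_mid hk)

theorem rot_suc_eq (cx : IsCx T) (h : Rot T D v n x w) {k : Fin (n + 1)} {y : V} (hy : Re D y)
    (hs : Suc T D v (x k) y) : y = x (k + 1) :=
  suc_unique cx hy (rot_re h _) hs (rot_suc h k)

theorem rot_pre_eq (cx : IsCx T) (h : Rot T D v n x w) {k : Fin (n + 1)} {y : V} (hy : Re D y)
    (hs : Suc T D v y (x (k + 1))) : y = x k :=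
  suc_unique' cx hy (rot_re h _) hs (rot_suc h k)

omit [DecidableEq V] in
/-- a set of indices closed under `+ 1` is everything -/
theorem fin_closed {n : ℕ} {P : Fin (n + 1) → Prop} {k : Fin (n + 1)} (hk : P k)
    (hs : ∀ k, P k → P (k + 1)) (l : Fin (n + 1)) : P l := by
  have key : ∀ m : ℕ, P (Fin.ofNat (n + 1) (k.val + m)) := by
    intro m
    induction m with
    | zero =>
      have e : Fin.ofNat (n + 1) (k.val + 0) = k := by
        apply Fin.ext
        simp only [Fin.ofNat, add_zero]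
        exact Nat.mod_eq_of_lt k.isLt
      rw [e]
      exact hk
    | succ m ih =>
      have := hs _ ih
      have e : Fin.ofNat (n + 1) (k.val + m) + 1 = Fin.ofNat (n + 1) (k.val + (m + 1)) := by
        apply Fin.ext
        rw [Fin.add_def]
        simp only [Fin.ofNat, Fin.val_one']
        rw [← Nat.add_mod]
        rfl
      rwa [e] at this
  have e : Fin.ofNat (n + 1) (k.val + (l.val + (n + 1) - k.val)) = l := by
    apply Fin.ext
    have hk := k.isLt
    have e2 : k.val + (l.val + (n + 1) - k.val) = l.val + (n + 1) := by omega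
    simp only [Fin.ofNat, e2, Nat.add_mod_right]
    exact Nat.mod_eq_of_lt l.isLt
  rw [← e]
  exact key _

/-- **three pairwise consecutive real neighbours are all real neighbours** -/
theorem tri_closed (cx : IsCx T) (h : Rot T D v n x w) {y1 y2 y3 : V} (r1 : Ar D v y1)
    (r2 : Ar D v y2) (r3 : Ar D v y3) (n12 : y1 ≠ y2) (n13 : y1 ≠ y3) (n23 : y2 ≠ y3)
    (l12 : Lnk T D v y1 y2) (l13 : Lnk T D v y1 y3) (l23 : Lnk T D v y2 y3) (y : V)
    (hy : Ar D v y) : y = y1 ∨ y = y2 ∨ y = y3 := by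
  have key : ∀ p q r : V, Re D p → Re D q → Re D r → p ≠ q → p ≠ r → q ≠ r → Lnk T D v p q →
      Lnk T D v p r → ∀ k, x k = p → x (k + 1) = q ∨ x (k + 1) = r := by
    rintro p q r hp hq hr npq npr nqr h1 h2 k rfl
    rcases lnk_suc cx npq h1 with s1 | s1
    · exact Or.inl (rot_suc_eq cx h hq s1).symm
    · rcases lnk_suc cx npr h2 with s2 | s2
      · exact Or.inr (rot_suc_eq cx h hr s2).symm
      · exact absurd (suc_unique' cx hq hr s1 s2) nqr
  have e1 := (ar_re r1).2
  have e2 := (ar_re r2).2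
  have e3 := (ar_re r3).2
  obtain ⟨k1, hk1⟩ := (h.nb _).1 r1
  obtain ⟨l, rfl⟩ := (h.nb _).1 hy
  refine fin_closed (P := fun k => x k = y1 ∨ x k = y2 ∨ x k = y3) (k := k1) (Or.inl hk1.symm)
    ?_ l
  rintro k (hk | hk | hk)
  · rcases key y1 y2 y3 e1 e2 e3 n12 n13 n23 l12 l13 k hk with k' | k' <;> tauto
  · rcases key y2 y1 y3 e2 e1 e3 n12.symm n23 n13 (lnk_symm l12) l23 k hk with k' | k' <;> tauto
  · rcases key y3 y1 y2 e3 e1 e2 n13.symm n23.symm n12 (lnk_symm l13) (lnk_symm l23) k hk with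
      k' | k' <;> tauto

/-- adjacent neighbours of an inner vertex are consecutive -/
theorem lnk_of_adj (hT : Ts T D a b c) (hv : ¬ Tr a b c v) {y y' : V} (h1 : Adj T v y)
    (h2 : Adj T v y') (h3 : Adj T y y') : Lnk T D v y y' := by
  rcases hT.fc v y y' h1 h3 h2.symm with k | ⟨k, _⟩
  · exact Or.inl k
  · exact absurd k hv

/-- neighbours of an inner vertex with a common dummy are consecutive -/
theorem lnk_of_dum (hT : Ts T D a b c) (hv : ¬ Tr a b c v) {y y' e : V} (h1 : Adj T v y)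
    (h2 : Adj T v y') (he : ¬ Re D e) (h3 : Adj T e v) (h4 : Adj T e y) (h5 : Adj T e y') :
    Lnk T D v y y' := by
  refine Or.inr ⟨e, he, ?_, ?_⟩
  · rcases hT.fc v y e h1 h4.symm h3 with k | ⟨k, _⟩
    · exact k
    · exact absurd k hv
  · rcases hT.fc v y' e h2 h5.symm h3 with k | ⟨k, _⟩
    · exact k
    · exact absurd k hv

end rot

end Pool.Agent.H32.G4
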